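import Pool.Agent.Helper58.HL.Lim

/-!
# The full tree projects onto every regular tree
-/

set_option autoImplicit false

open Cardinal Set Helper2.HB

namespace Pool.Agent.Helper58.HL

section

variable {K : Type} [LinearOrder K]

/-- the node with length `l` and values `h` below `l` -/
def nodeOf (b : K) (hb : ∀ ξ, b ≤ ξ) (h : K → K) (l : K) : Node K where
  len := l
  val := fun η => if η < l then h η else b
  supp := by
    intro η h' ξ
    rw [if_neg (not_lt.2 h')]
    exact hb ξ

theorem nodeOf_val (b : K) (hb : ∀ ξ, b ≤ ξ) (h : K → K) (l : K) {η : K} (hη : η < l) :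
    (nodeOf b hb h l).val η = h η := if_pos hη

/-- `v` is the value of a successor of `u` in `T` -/
def Ok (T : Set (Node K)) (u : Node K) (v : K) : Prop :=
  ∃ t ∈ T, u ≤ t ∧ u.len < t.len ∧ t.val u.len = v

open Classical in
/-- the successor of `u` chosen by `ξ` -/
noncomputable def step (T : Set (Node K)) (u : Node K) (ξ : K) : K :=
  if Ok T u ξ then ξ else if h : ∃ v, Ok T u v then h.choose else ξ

theorem step_ok {T : Set (Node K)} {u : Node K} (h : ∃ v, Ok T u v) (ξ : K) :
    Ok T u (step T u ξ) := by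
  unfold step
  split_ifs with h1
  · exact h1
  · exact h.choose_spec

theorem step_eq {T : Set (Node K)} {u : Node K} {ξ : K} (h : Ok T u ξ) : step T u ξ = ξ := by
  unfold step
  rw [if_pos h]

variable [WellFoundedLT K]

open Classical in
/-- the values of the projection -/
noncomputable def path (T : Set (Node K)) (b : K) (hb : ∀ ξ, b ≤ ξ) (h : K → K) : K → K :=
  (wellFounded_lt (α := K)).fix fun η ih =>
    step T (nodeOf b hb (fun ξ => if hξ : ξ < η then ih ξ hξ else b) η) (h η)

theorem path_eq (T : Set (Node K)) (b : K) (hb : ∀ ξ, b ≤ ξ) (h : K → K) (η : K) :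
    path T b hb h η = step T (nodeOf b hb (path T b hb h) η) (h η) := by
  classical
  have h1 : path T b hb h η = step T (nodeOf b hb
      (fun ξ => if hξ : ξ < η then path T b hb h ξ else b) η) (h η) :=
    WellFounded.fix_eq _ _ _
  rw [h1]
  congr 1
  refine Node.eq_of rfl fun ξ hξ => ?_
  have hξ' : ξ < η := hξ
  rw [nodeOf_val _ _ _ _ hξ', nodeOf_val _ _ _ _ hξ', dif_pos hξ']

theorem path_congr (T : Set (Node K)) (b : K) (hb : ∀ ξ, b ≤ ξ) (h h' : K → K) (l : K)
    (hh : ∀ η < l, h η = h' η) : ∀ η < l, path T b hb h η = path T b hb h' η := by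
  intro η
  induction η using WellFoundedLT.induction with
  | ind η ih =>
    intro hη
    rw [path_eq, path_eq, hh η hη]
    congr 1
    refine Node.eq_of rfl fun ξ hξ => ?_
    have hξ' : ξ < η := hξ
    rw [nodeOf_val _ _ _ _ hξ', nodeOf_val _ _ _ _ hξ']
    exact ih ξ hξ' (hξ'.trans hη)

end

variable {κ : Cardinal.{0}} {T : Set (Node κ.ord.ToType)}

theorem exists_ok (hκ : κ.IsRegular) (hT : IsRegularTree T) {u : Node κ.ord.ToType} (hu : u ∈ T) :
    ∃ v, Ok T u v := by
  have : NoMaxOrder κ.ord.ToType := Cardinal.noMaxOrder hκ.aleph0_le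
  obtain ⟨l, hl⟩ := exists_gt u.len
  obtain ⟨r, hr, hrl⟩ := exists_level hT ⟨u, hu⟩ l hl.le
  exact ⟨_, r.1, r.2, hr, by rw [hrl]; exact hl, rfl⟩

theorem nodeOf_path_mem (hκ : κ.IsRegular) (hT : IsRegularTree T) (b : κ.ord.ToType)
    (hb : ∀ ξ, b ≤ ξ) (h : κ.ord.ToType → κ.ord.ToType) :
    ∀ η, nodeOf b hb (path T b hb h) η ∈ T := by
  intro η
  induction η using WellFoundedLT.induction with
  | ind η ih =>
    by_cases hmax : ∃ ξ, ξ < η ∧ ∀ ζ < η, ζ ≤ ξ
    · obtain ⟨ξ, hξ, hmax⟩ := hmax
      obtain ⟨t, ht, hle, hlt, hval⟩ := step_ok (exists_ok hκ hT (ih ξ hξ)) (h ξ)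
      rw [← path_eq] at hval
      have hηt : η ≤ t.len := by
        by_contra hcon
        exact absurd (hmax t.len (not_le.1 hcon)) (not_le.2 hlt)
      have : nodeOf b hb (path T b hb h) η = t.restr η := by
        refine Node.eq_of rfl fun ζ hζ => ?_
        have hζ' : ζ < η := hζ
        rw [nodeOf_val _ _ _ _ hζ']
        have h2 : (t.restr η).val ζ = t.val ζ := by
          simp only [Node.restr]
          rw [if_pos hζ']
        rw [h2]
        rcases eq_or_lt_of_le (hmax ζ hζ') with h3 | h3
        · subst h3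
          exact hval.symm
        · have := hle.2 ζ h3
          rw [nodeOf_val _ _ _ _ h3] at this
          exact this
      rw [this]
      exact hT.down _ ht _ (Node.restr_le hηt)
    · push Not at hmax
      obtain ⟨r, hr, hrl, hrd⟩ := hT.ub hK_toType
        (D := (fun ξ => nodeOf b hb (path T b hb h) ξ) '' Iio η)
        (by rintro _ ⟨ξ, hξ, rfl⟩; exact ih ξ hξ) (by
          rintro _ ⟨ξ, hξ, rfl⟩ _ ⟨ξ', hξ', rfl⟩ _
          have key : ∀ a a' : κ.ord.ToType, a ≤ a' → nodeOf b hb (path T b hb h) a ≤
              nodeOf b hb (path T b hb h) a' := by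
            intro a a' haa'
            refine ⟨haa', fun ζ hζ => ?_⟩
            have hζ' : ζ < a := hζ
            rw [nodeOf_val _ _ _ _ hζ', nodeOf_val _ _ _ _ (hζ'.trans_le haa')]
          rcases le_total ξ ξ' with h | h
          · exact Or.inl (key _ _ h)
          · exact Or.inr (key _ _ h)) η (by
          rintro _ ⟨ξ, hξ, rfl⟩; exact le_of_lt hξ)
      have : nodeOf b hb (path T b hb h) η = r := by
        refine Node.eq_of hrl.symm fun ζ hζ => ?_
        have hζ' : ζ < η := hζ
        obtain ⟨ξ, hξ, hζξ⟩ := hmax ζ hζ'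
        have h1 := (hrd _ ⟨ξ, hξ, rfl⟩).2 ζ hζξ
        rw [nodeOf_val _ _ _ _ hζξ] at h1
        rw [nodeOf_val _ _ _ _ hζ', h1]
      rw [this]
      exact hr

/-- **The projection.** -/
theorem exists_proj (hκ : κ.IsRegular) (hT : IsRegularTree T) :
    ∃ π : Node κ.ord.ToType → T, (∀ p, (π p : Node κ.ord.ToType).len = p.len) ∧
      (∀ p p', p ≤ p' → π p ≤ π p') ∧ ∀ p, ∀ t : T, π p ≤ t → ∃ p', p ≤ p' ∧ π p' = t := by
  classical
  have hne : Nonempty κ.ord.ToType := by
    rw [← Cardinal.mk_ne_zero_iff, Cardinal.mk_ord_toType]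
    exact (lt_of_lt_of_le Cardinal.aleph0_pos hκ.aleph0_le).ne'
  obtain ⟨b, -, hb'⟩ := (wellFounded_lt (α := κ.ord.ToType)).has_min univ univ_nonempty
  have hb : ∀ ξ, b ≤ ξ := fun ξ => not_lt.1 (hb' ξ (mem_univ _))
  refine ⟨fun p => ⟨nodeOf b hb (path T b hb p.val) p.len, nodeOf_path_mem hκ hT b hb _ _⟩,
    fun p => rfl, fun p p' hpp' => ?_, fun p t hpt => ?_⟩
  · refine ⟨hpp'.1, fun η hη => ?_⟩
    have hη' : η < p.len := hη
    rw [nodeOf_val _ _ _ _ hη', nodeOf_val _ _ _ _ (hη'.trans_le hpp'.1)]
    exact path_congr T b hb p.val p'.val p.len hpp'.2 η hη'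
  · have hlen : p.len ≤ (t : Node κ.ord.ToType).len := hpt.1
    refine ⟨nodeOf b hb (fun η => if η < p.len then p.val η else (t : Node κ.ord.ToType).val η)
      (t : Node κ.ord.ToType).len, ⟨hlen, fun η hη => ?_⟩, ?_⟩
    · rw [nodeOf_val _ _ _ _ (hη.trans_le hlen), if_pos hη]
    · apply Subtype.ext
      refine Node.eq_of rfl ?_
      intro η
      induction η using WellFoundedLT.induction with
      | ind η ih =>
        intro hη
        have hη' : η < (t : Node κ.ord.ToType).len := hη
        simp only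
        set h' : κ.ord.ToType → κ.ord.ToType := (nodeOf b hb
          (fun η => if η < p.len then p.val η else (t : Node κ.ord.ToType).val η)
          (t : Node κ.ord.ToType).len).val with hh'
        have hlen' : (nodeOf b hb
          (fun η => if η < p.len then p.val η else (t : Node κ.ord.ToType).val η)
          (t : Node κ.ord.ToType).len).len = (t : Node κ.ord.ToType).len := rfl
        rw [nodeOf_val _ _ _ _ (by rw [hlen']; exact hη')]
        have hu : nodeOf b hb (path T b hb h') η = (t : Node κ.ord.ToType).restr η := by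
          refine Node.eq_of rfl fun ξ hξ => ?_
          have hξ' : ξ < η := hξ
          have h1 := ih ξ hξ' (hξ'.trans hη')
          simp only at h1
          rw [nodeOf_val _ _ _ _ (by rw [hlen']; exact hξ'.trans hη')] at h1
          have h2 : ((t : Node κ.ord.ToType).restr η).val ξ = (t : Node κ.ord.ToType).val ξ := by
            simp only [Node.restr]
            rw [if_pos hξ']
          rw [nodeOf_val _ _ _ _ hξ', h2]
          exact h1
        rcases lt_or_ge η p.len with hlt | hge
        · have h1 : path T b hb h' η = path T b hb p.val η := by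
            refine path_congr T b hb h' p.val p.len (fun ζ hζ => ?_) η hlt
            rw [hh', nodeOf_val _ _ _ _ (hζ.trans_le hlen), if_pos hζ]
          have h2 := hpt.2 η hlt
          rw [nodeOf_val _ _ _ _ hlt] at h2
          rw [h1, h2]
        · rw [path_eq, hu]
          have h3 : h' η = (t : Node κ.ord.ToType).val η := by
            rw [hh', nodeOf_val _ _ _ _ hη', if_neg (not_lt.2 hge)]
          rw [h3]
          exact step_eq ⟨t.1, t.2, Node.restr_le hη'.le, hη', rfl⟩

end Pool.Agent.Helper58.HL
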