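import Pool.Agent.Helper58.HL.Compact
import Pool.Agent.Helper58.HL.Proj

/-!
# Boxes on levels, from a property of `κ` alone
-/

set_option autoImplicit false

open Cardinal Set Helper2.HB

namespace Pool.Agent.Helper58.HL

variable {κ : Cardinal.{0}}

/-- the least element -/
theorem exists_least (hκ : κ.IsRegular) : ∃ b : κ.ord.ToType, ∀ ξ, b ≤ ξ := by
  have hne : Nonempty κ.ord.ToType := by
    rw [← Cardinal.mk_ne_zero_iff, Cardinal.mk_ord_toType]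
    exact (lt_of_lt_of_le Cardinal.aleph0_pos hκ.aleph0_le).ne'
  obtain ⟨b, -, hb'⟩ := (wellFounded_lt (α := κ.ord.ToType)).has_min univ univ_nonempty
  exact ⟨b, fun ξ => not_lt.1 (hb' ξ (mem_univ _))⟩

/-- the full tree is closed -/
theorem closed_node (hκ : κ.IsRegular) : Closed κ (Node κ.ord.ToType) := by
  classical
  intro C _ hch hcard
  obtain ⟨b, hb⟩ := exists_least hκ
  obtain ⟨l, hl⟩ := exists_bound hκ hcard (fun z : C => (z.1 : Node κ.ord.ToType).len)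
  refine ⟨nodeOf b hb (fun η => if h : ∃ u ∈ C, η < u.len then h.choose.val η else b) l, ?_⟩
  intro u hu
  refine ⟨hl ⟨u, hu⟩, fun η hη => ?_⟩
  have h : ∃ u ∈ C, η < u.len := ⟨u, hu, hη⟩
  rw [nodeOf_val _ _ _ _ (hη.trans_le (hl ⟨u, hu⟩)), dif_pos h]
  have h1 := h.choose_spec
  by_cases he : u = h.choose
  · rw [← he]
  · rcases hch hu h1.1 he with h2 | h2
    · exact h2.2 η hη
    · exact (h2.2 η h1.2).symm

/-- `κ` is a strong limit. -/
theorem card_set_lt (D : Ultrafilter κ.ord.ToType)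
    (hD : CardinalInterFilter (D : Filter κ.ord.ToType) κ) (hDt : ∀ a, Ioi a ∈ D) {Z : Type}
    (hZ : #Z < κ) : #(Set Z) < κ := by
  classical
  by_contra hcon
  have h1 : #κ.ord.ToType ≤ #(Set Z) := by rw [Cardinal.mk_ord_toType]; exact not_lt.1 hcon
  obtain ⟨f⟩ := h1
  have h2 : (⋂ z : Z, {ζ | z ∈ f ζ ↔ {ζ' | z ∈ f ζ'} ∈ D}) ∈ (D : Filter κ.ord.ToType) := by
    refine (Filter.cardinal_iInter_mem hZ).2 fun z => ?_
    by_cases h : {ζ' | z ∈ f ζ'} ∈ D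
    · refine Filter.mem_of_superset h fun ζ hζ => ?_
      exact ⟨fun _ => h, fun _ => hζ⟩
    · refine Filter.mem_of_superset (Ultrafilter.compl_mem_iff_notMem.2 h) fun ζ hζ => ?_
      exact ⟨fun h' => absurd h' hζ, fun h' => absurd h' h⟩
  obtain ⟨ζ₀, hζ₀⟩ := D.nonempty_of_mem h2
  obtain ⟨ζ₁, hζ₁, hlt⟩ := D.nonempty_of_mem (Filter.inter_mem h2 (hDt ζ₀))
  have h3 : f ζ₀ = f ζ₁ := by
    ext z
    exact (mem_iInter.1 hζ₀ z).trans (mem_iInter.1 hζ₁ z).symm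
  exact absurd (f.injective h3) (ne_of_lt hlt)

theorem card_node_le (hκ : κ.IsRegular) (D : Ultrafilter κ.ord.ToType)
    (hD : CardinalInterFilter (D : Filter κ.ord.ToType) κ) (hDt : ∀ a, Ioi a ∈ D) :
    #(Node κ.ord.ToType) ≤ κ := by
  classical
  have : NoMaxOrder κ.ord.ToType := Cardinal.noMaxOrder hκ.aleph0_le
  have hIio : ∀ ζ : κ.ord.ToType, #(Iio ζ) < κ := fun ζ => Cardinal.mk_Iio_toType_ord_lt ζ
  have hIic : ∀ ζ : κ.ord.ToType, #(Iic ζ) < κ := by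
    intro ζ
    obtain ⟨ξ, hξ⟩ := exists_gt ζ
    exact lt_of_le_of_lt (Cardinal.mk_le_mk_of_subset fun x hx => lt_of_le_of_lt hx hξ) (hIio ξ)
  have hbd : ∀ p : Node κ.ord.ToType, ∃ B, ∀ η : Iio p.len, p.val η ≤ B := fun p =>
    exists_bound hκ (hIio p.len) (fun η : Iio p.len => p.val η)
  choose B hB using hbd
  have h1 : #(Node κ.ord.ToType) ≤
      #(Σ z : κ.ord.ToType × κ.ord.ToType, (Iio z.1 → Iic z.2)) := by
    refine Cardinal.mk_le_of_injective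
      (f := fun p : Node κ.ord.ToType => (⟨(p.len, B p), fun η => ⟨p.val η, hB p η⟩⟩ :
        Σ z : κ.ord.ToType × κ.ord.ToType, (Iio z.1 → Iic z.2))) ?_
    intro p q hpq
    have hpq1 := congrArg Sigma.fst hpq
    have hlen : p.len = q.len := congrArg Prod.fst hpq1
    refine Node.eq_of hlen fun η hη => ?_
    have key : ∀ z w : (Σ z : κ.ord.ToType × κ.ord.ToType, (Iio z.1 → Iic z.2)), z = w →
        ∀ (h1 : η < z.1.1) (h2 : η < w.1.1), ((z.2 ⟨η, h1⟩ : Iic z.1.2) : κ.ord.ToType) =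
          ((w.2 ⟨η, h2⟩ : Iic w.1.2) : κ.ord.ToType) := by
      rintro z w rfl _ _; rfl
    exact key _ _ hpq hη (lt_of_lt_of_eq hη hlen)
  refine h1.trans ?_
  rw [Cardinal.mk_sigma]
  have h2 : ∀ z : κ.ord.ToType × κ.ord.ToType, #(Iio z.1 → Iic z.2) ≤ κ := by
    intro z
    have h3 : #(Iio z.1 → Iic z.2) ≤ #(Set (Iio z.1 × Iic z.2)) := by
      refine Cardinal.mk_le_of_injective
        (f := fun g : Iio z.1 → Iic z.2 => {w : Iio z.1 × Iic z.2 | g w.1 = w.2}) ?_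
      intro g g' hgg
      funext η
      have h4 : ((η, g η) : Iio z.1 × Iic z.2) ∈ {w : Iio z.1 × Iic z.2 | g w.1 = w.2} := rfl
      have hgg' : {w : Iio z.1 × Iic z.2 | g w.1 = w.2} =
        {w : Iio z.1 × Iic z.2 | g' w.1 = w.2} := hgg
      rw [hgg'] at h4
      exact (show g' η = g η from h4).symm
    refine h3.trans (card_set_lt D hD hDt ?_).le
    rw [Cardinal.mk_prod]
    simp only [Cardinal.lift_id]
    exact Cardinal.mul_lt_of_lt hκ.aleph0_le (hIio _) (hIic _)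
  refine (Cardinal.sum_le_sum _ (fun _ => κ) h2).trans ?_
  rw [Cardinal.sum_const]
  simp only [Cardinal.lift_id]
  rw [Cardinal.mk_prod]
  simp only [Cardinal.lift_id, Cardinal.mk_ord_toType]
  rw [Cardinal.mul_eq_self hκ.aleph0_le, Cardinal.mul_eq_self hκ.aleph0_le]

/-- **Boxes on levels** of any two regular trees. -/
theorem exists_boxes_level_univ (hκ : κ.IsRegular)
    {T₀ T₁ : Set (Node κ.ord.ToType)}
    (h₀ : IsRegularTree T₀) (h₁ : IsRegularTree T₁) (D : Ultrafilter κ.ord.ToType)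
    (hD : CardinalInterFilter (D : Filter κ.ord.ToType) κ) (hDt : ∀ a, Ioi a ∈ D)
    (hE : GenCompact κ (Node κ.ord.ToType)) {ι : Type} (hι : #ι < κ) (c : T₀ → T₁ → ι)
    (a₀ : T₀) (a₁ : T₁) :
    ∃ s, a₀ ≤ s ∧ ∃ t, a₁ ≤ t ∧ ∃ i : ι, ∀ (M J : Type), #M < κ → #J < κ →
      ∀ (p : M → T₀) (q : J → T₁), (∀ m, s ≤ p m) → (∀ j, t ≤ q j) →
        {ζ | ∃ (x : M → T₀) (y : J → T₁),
          (∀ m, p m ≤ x m ∧ (x m : Node κ.ord.ToType).len = ζ) ∧
          (∀ j, q j ≤ y j ∧ (y j : Node κ.ord.ToType).len = ζ) ∧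
          ∀ m j, c (x m) (y j) = i} ∈ D := by
  classical
  have hb₀ : ∀ (s : T₀) (ζ : κ.ord.ToType), ∃ r : T₀, (s : Node κ.ord.ToType).len ≤ ζ →
      s ≤ r ∧ (r : Node κ.ord.ToType).len = ζ := by
    intro s ζ
    by_cases h : (s : Node κ.ord.ToType).len ≤ ζ
    · obtain ⟨r, hr⟩ := exists_level h₀ s ζ h
      exact ⟨r, fun _ => hr⟩
    · exact ⟨s, fun h' => absurd h' h⟩
  have hb₁ : ∀ (s : T₁) (ζ : κ.ord.ToType), ∃ r : T₁, (s : Node κ.ord.ToType).len ≤ ζ →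
      s ≤ r ∧ (r : Node κ.ord.ToType).len = ζ := by
    intro s ζ
    by_cases h : (s : Node κ.ord.ToType).len ≤ ζ
    · obtain ⟨r, hr⟩ := exists_level h₁ s ζ h
      exact ⟨r, fun _ => hr⟩
    · exact ⟨s, fun h' => absurd h' h⟩
  choose b₀ hb₀ using hb₀
  choose b₁ hb₁ using hb₁
  have hlim : ∀ (s : T₀) (t : T₁), ∃ i : ι, {ζ | c (b₀ s ζ) (b₁ t ζ) = i} ∈ D := by
    intro s t
    by_contra hcon
    push Not at hcon
    have h1 : (⋂ i : ι, {ζ | c (b₀ s ζ) (b₁ t ζ) = i}ᶜ) ∈ (D : Filter κ.ord.ToType) :=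
      (Filter.cardinal_iInter_mem hι).2
        (fun i => Ultrafilter.compl_mem_iff_notMem.2 (hcon i))
    obtain ⟨ζ, hζ⟩ := D.nonempty_of_mem h1
    exact mem_iInter.1 hζ (c (b₀ s ζ) (b₁ t ζ)) rfl
  choose c' hc' using hlim
  obtain ⟨π₀, hπ₀l, hπ₀m, hπ₀p⟩ := exists_proj hκ h₀
  obtain ⟨π₁, hπ₁l, hπ₁m, hπ₁p⟩ := exists_proj hκ h₁
  -- starting points
  obtain ⟨b, hb⟩ := exists_least hκ
  have hroot : ∀ (T : Set (Node κ.ord.ToType)) (π : Node κ.ord.ToType → T),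
      (∀ p, (π p : Node κ.ord.ToType).len = p.len) → ∀ a : T,
      π (nodeOf b hb (fun _ => b) b) ≤ a := by
    intro T π hπ a
    have hl : (π (nodeOf b hb (fun _ => b) b) : Node κ.ord.ToType).len = b := hπ _
    refine ⟨?_, fun η hη => ?_⟩
    · rw [hl]; exact hb _
    · rw [hl] at hη
      exact absurd hη (not_lt.2 (hb η))
  obtain ⟨p₀, -, hp₀⟩ := hπ₀p _ a₀ (hroot T₀ π₀ hπ₀l a₀)
  obtain ⟨p₁, -, hp₁⟩ := hπ₁p _ a₁ (hroot T₁ π₁ hπ₁l a₁)
  have hN : #(Node κ.ord.ToType) ≤ κ := card_node_le hκ D hD hDt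
  have hmul : ∀ {A B : Type}, #A ≤ κ → #B ≤ κ → #(A × B) ≤ κ := by
    intro A B hA hB
    rw [Cardinal.mk_prod]
    simp only [Cardinal.lift_id]
    exact (mul_le_mul' hA hB).trans (Cardinal.mul_eq_self hκ.aleph0_le).le
  set c'' : Node κ.ord.ToType → Node κ.ord.ToType → ι := fun p q => c' (π₀ p) (π₁ q) with hc''
  obtain ⟨E₁, hF₁, hd₁⟩ := hE.exists_of_le (I := Node κ.ord.ToType × ι) (hmul hN hι.le)
    (fun z => {y | c'' z.1 y = z.2})
  obtain ⟨E₀, hF₀, hd₀⟩ := hE.exists_of_le (I := ι × Node κ.ord.ToType) (hmul hι.le hN)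
    (fun z => possible E₁ c'' z.1 z.2)
  have : Nonempty (Node κ.ord.ToType) := ⟨p₀⟩
  obtain ⟨s, hs, t, ht, i, hi⟩ := exists_boxes_of_decides hκ.aleph0_le (closed_node hκ)
    (closed_node hκ) (cone₀ := Ici) (cone₁ := Ici) (fun p p' h => Ici_subset_Ici.2 h)
    (fun p p' h => Ici_subset_Ici.2 h) hF₀ hF₁ hι c'' (fun x i => hd₁ (x, i))
    (fun i t => hd₀ (i, t)) p₀ p₁
  refine ⟨π₀ s, hp₀ ▸ hπ₀m _ _ hs, π₁ t, hp₁ ▸ hπ₁m _ _ ht, i,
    fun M J hM hJ p q hp hq => ?_⟩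
  choose p' hp's hp'p using fun m => hπ₀p s (p m) (hp m)
  choose q' hq's hq'q using fun j => hπ₁p t (q j) (hq j)
  obtain ⟨x, y, hx, hy, hxy⟩ := hi M J hM hJ p' q' hp's hq's
  obtain ⟨l, hl⟩ := exists_bound hκ hM (fun m => (π₀ (x m) : Node κ.ord.ToType).len)
  obtain ⟨l', hl'⟩ := exists_bound hκ hJ (fun j => (π₁ (y j) : Node κ.ord.ToType).len)
  have hMJ : #(M × J) < κ := by
    rw [Cardinal.mk_prod]
    simp only [Cardinal.lift_id]
    exact Cardinal.mul_lt_of_lt hκ.aleph0_le hM hJ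
  have h1 : (⋂ z : M × J, {ζ | c (b₀ (π₀ (x z.1)) ζ) (b₁ (π₁ (y z.2)) ζ) = i}) ∈
      (D : Filter κ.ord.ToType) := by
    refine (Filter.cardinal_iInter_mem hMJ).2 fun z => ?_
    have := hc' (π₀ (x z.1)) (π₁ (y z.2))
    have h2 : c' (π₀ (x z.1)) (π₁ (y z.2)) = i := hxy z.1 z.2
    rwa [h2] at this
  refine Filter.mem_of_superset (Filter.inter_mem h1 (Filter.inter_mem (hDt l) (hDt l'))) ?_
  rintro ζ ⟨hζ, hζl, hζl'⟩
  refine ⟨fun m => b₀ (π₀ (x m)) ζ, fun j => b₁ (π₁ (y j)) ζ, fun m => ?_, fun j => ?_,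
    fun m j => ?_⟩
  · have h3 := hb₀ (π₀ (x m)) ζ ((hl m).trans (le_of_lt hζl))
    have h4 : p m ≤ π₀ (x m) := by
      have := hπ₀m _ _ (hx m : p' m ≤ x m)
      rwa [hp'p m] at this
    exact ⟨h4.trans h3.1, h3.2⟩
  · have h3 := hb₁ (π₁ (y j)) ζ ((hl' j).trans (le_of_lt hζl'))
    have h4 : q j ≤ π₁ (y j) := by
      have := hπ₁m _ _ (hy j : q' j ≤ y j)
      rwa [hq'q j] at this
    exact ⟨h4.trans h3.1, h3.2⟩
  · exact mem_iInter.1 hζ (m, j)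

end Pool.Agent.Helper58.HL
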