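import Pool.Agent.Helper58.HL.Lim

/-!
# The same with filters that decide only `κ` sets
-/

set_option autoImplicit false

open Cardinal Set Helper2.HB

namespace Pool.Agent.Helper58.HL

universe u

/-- A name of a `κ`-complete proper filter containing the cones of the generic branch: a family of
proper `κ`-complete filters on `Z`, increasing with the condition, containing the cone of the
condition. -/
structure IsGenFil (κ : Cardinal.{u}) {P Z : Type u} [Preorder P] (cone : P → Set Z)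
    (E : P → Filter Z) : Prop where
  ne : ∀ p, (E p).NeBot
  complete : ∀ p, CardinalInterFilter (E p) κ
  mono : ∀ p p', p ≤ p' → E p' ≤ E p
  cone_mem : ∀ p, cone p ∈ E p

/-- `E` decides the set `C` densely. -/
def Decides {P Z : Type u} [Preorder P] (E : P → Filter Z) (C : Set Z) : Prop :=
  ∀ p, ∃ p', p ≤ p' ∧ (C ∈ E p' ∨ Cᶜ ∈ E p')

variable {κ : Cardinal.{u}}

theorem IsGenFil.decide_cover (hκ : ℵ₀ ≤ κ) {P Z : Type u} [Preorder P] {cone : P → Set Z}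
    {E : P → Filter Z} (hE : IsGenFil κ cone E) (hP : Closed κ P) {ι : Type u} (hι : #ι < κ)
    (C : ι → Set Z) (hd : ∀ i, Decides E (C i)) (hC : ∀ z, ∃ i, z ∈ C i) (p : P) :
    ∃ p', p ≤ p' ∧ ∃ i, C i ∈ E p' := by
  by_contra hcon
  push Not at hcon
  obtain ⟨q, hq, hall⟩ := hP.meet hκ hι (fun i p => (C i)ᶜ ∈ E p)
    (fun i a b hab h => hE.mono a b hab h) p (by
      intro i a ha
      obtain ⟨b, hb, h | h⟩ := hd i a
      · exact absurd h (hcon b (ha.trans hb) i)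
      · exact ⟨b, hb, h⟩)
  have := hE.complete q
  have h1 : (⋂ i, (C i)ᶜ) ∈ E q := (Filter.cardinal_iInter_mem hι).2 hall
  have h2 : (⋂ i, (C i)ᶜ) = ∅ := by
    ext z
    simp only [mem_iInter, mem_compl_iff, mem_empty_iff_false, iff_false, not_forall, not_not]
    exact hC z
  rw [h2] at h1
  exact (hE.ne q).ne (Filter.empty_mem_iff_bot.1 h1)

/-- The sets that `E₀` has to decide. -/
def possible {P₁ Z₀ Z₁ ι : Type u} [Preorder P₁] (E₁ : P₁ → Filter Z₁) (c : Z₀ → Z₁ → ι) (i : ι)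
    (t : P₁) : Set Z₀ :=
  {x | ∃ t', t ≤ t' ∧ {z | c x z = i} ∈ E₁ t'}

/-- **Boxes**, with filters that decide only the sets needed. -/
theorem exists_boxes_of_decides (hκ : ℵ₀ ≤ κ) {P₀ P₁ Z₀ Z₁ : Type u} [Preorder P₀] [Preorder P₁]
    (h₀ : Closed κ P₀) (h₁ : Closed κ P₁) [Nonempty P₀] [Nonempty P₁]
    {cone₀ : P₀ → Set Z₀} {cone₁ : P₁ → Set Z₁} {E₀ : P₀ → Filter Z₀} {E₁ : P₁ → Filter Z₁}
    (hc₀ : ∀ p p', p ≤ p' → cone₀ p' ⊆ cone₀ p) (hc₁ : ∀ p p', p ≤ p' → cone₁ p' ⊆ cone₁ p)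
    (hE₀ : IsGenFil κ cone₀ E₀) (hE₁ : IsGenFil κ cone₁ E₁)
    {ι : Type u} (hι : #ι < κ) (c : Z₀ → Z₁ → ι)
    (hd₁ : ∀ x i, Decides E₁ {z | c x z = i}) (hd₀ : ∀ i t, Decides E₀ (possible E₁ c i t))
    (a₀ : P₀) (a₁ : P₁) :
    ∃ s, a₀ ≤ s ∧ ∃ t, a₁ ≤ t ∧ ∃ i : ι, ∀ (M J : Type u), #M < κ → #J < κ →
      ∀ (p : M → P₀) (q : J → P₁), (∀ m, s ≤ p m) → (∀ j, t ≤ q j) →
        ∃ (x : M → Z₀) (y : J → Z₁), (∀ m, x m ∈ cone₀ (p m)) ∧ (∀ j, y j ∈ cone₁ (q j)) ∧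
          ∀ m j, c (x m) (y j) = i := by
  classical
  have hQ : ∀ i t t', t ≤ t' → possible E₁ c i t' ⊆ possible E₁ c i t := by
    rintro i t t' h x ⟨t'', h1, h2⟩
    exact ⟨t'', h.trans h1, h2⟩
  have hcov : ∀ t x, ∃ i, x ∈ possible E₁ c i t := by
    intro t x
    obtain ⟨t', h1, i, h2⟩ := hE₁.decide_cover hκ h₁ hι (fun i => {z | c x z = i}) (hd₁ x)
      (fun z => ⟨c x z, rfl⟩) t
    exact ⟨i, t', h1, h2⟩
  have main : ∃ s, a₀ ≤ s ∧ ∃ t, a₁ ≤ t ∧ ∃ i, ∀ s', s ≤ s' → ∀ t', t ≤ t' →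
      ∃ s'', s' ≤ s'' ∧ possible E₁ c i t' ∈ E₀ s'' := by
    by_contra hcon
    push Not at hcon
    obtain ⟨⟨s, t⟩, hst, hall⟩ := (h₀.prod h₁).meet hκ hι
      (fun i (z : P₀ × P₁) => ∀ s', z.1 ≤ s' → possible E₁ c i z.2 ∉ E₀ s')
      (by
        rintro i ⟨s, t⟩ ⟨s', t'⟩ ⟨h1, h2⟩ h s'' hs'' hmem
        exact h s'' (le_trans h1 hs'') (Filter.mem_of_superset hmem (hQ i _ _ h2)))
      (a₀, a₁)
      (by
        rintro i ⟨s, t⟩ ⟨hs, ht⟩
        obtain ⟨s', h1, t', h2, h3⟩ := hcon s hs t ht i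
        exact ⟨(s', t'), ⟨h1, h2⟩, h3⟩)
    obtain ⟨s', h1, i, h2⟩ := hE₀.decide_cover hκ h₀ hι (fun i => possible E₁ c i t)
      (fun i => hd₀ i t) (hcov t) s
    exact hall i s' h1 h2
  obtain ⟨s, hs, t, ht, i, hi⟩ := main
  refine ⟨s, hs, t, ht, i, fun M J hM hJ p q hp hq => ?_⟩
  obtain ⟨q', hq', hall⟩ := (h₁.pi (J := J)).meet hκ hM
    (fun m (f : J → P₁) => ∃ x ∈ cone₀ (p m), ∀ j, {z | c x z = i} ∈ E₁ (f j))
    (by
      rintro m f f' hf ⟨x, hx, h⟩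
      exact ⟨x, hx, fun j => hE₁.mono _ _ (hf j) (h j)⟩)
    q
    (by
      intro m f hf
      obtain ⟨s', hs', hs''⟩ := h₀.meet hκ hJ (fun j u => possible E₁ c i (f j) ∈ E₀ u)
        (fun j a b hab h => hE₀.mono a b hab h) (p m)
        (fun j u hu => hi u ((hp m).trans hu) (f j) ((hq j).trans (hf j)))
      have := hE₀.complete s'
      have h1 : (⋂ j, possible E₁ c i (f j)) ∈ E₀ s' := (Filter.cardinal_iInter_mem hJ).2 hs''
      have := hE₀.ne s'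
      obtain ⟨x, hx1, hx2⟩ := Filter.nonempty_of_mem (Filter.inter_mem h1 (hE₀.cone_mem s'))
      simp only [mem_iInter] at hx1
      choose g hg1 hg2 using hx1
      exact ⟨g, hg1, x, hc₀ _ _ hs' hx2, hg2⟩)
  choose x hx1 hx2 using hall
  have hy : ∀ j, ∃ y ∈ cone₁ (q j), ∀ m, c (x m) y = i := by
    intro j
    have := hE₁.complete (q' j)
    have h1 : (⋂ m, {z | c (x m) z = i}) ∈ E₁ (q' j) :=
      (Filter.cardinal_iInter_mem hM).2 (fun m => hx2 m j)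
    have := hE₁.ne (q' j)
    obtain ⟨y, hy1, hy2⟩ := Filter.nonempty_of_mem (Filter.inter_mem h1 (hE₁.cone_mem (q' j)))
    simp only [mem_iInter, mem_ofPred_eq] at hy1
    exact ⟨y, hc₁ _ _ (hq' j) hy2, hy1⟩
  choose y hy1 hy2 using hy
  exact ⟨x, y, hx1, hy1, fun m j => hy2 j m⟩

/-- `T` is generically `κ`-compact: for any `κ` subsets of `T` there is a name of a proper
`κ`-complete filter that contains the cones of the generic branch and decides these subsets. -/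
def GenCompact (κ : Cardinal.{0}) (T : Type) [Preorder T] : Prop :=
  ∀ C : κ.ord.ToType → Set T, ∃ E : T → Filter T, IsGenFil κ Ici E ∧ ∀ a, Decides E (C a)

theorem IsGenUlt.genCompact {κ : Cardinal.{0}} {T : Type} [Preorder T] {E : T → Filter T}
    (hE : IsGenUlt κ Ici E) : GenCompact κ T :=
  fun C => ⟨E, ⟨hE.ne, hE.complete, hE.mono, hE.cone_mem⟩, fun a => hE.decide (C a)⟩

theorem GenCompact.exists_of_le {κ : Cardinal.{0}} {T : Type} [Preorder T] (hT : GenCompact κ T)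
    {I : Type} (hI : #I ≤ κ) (F : I → Set T) :
    ∃ E : T → Filter T, IsGenFil κ Ici E ∧ ∀ a, Decides E (F a) := by
  classical
  have h : #I ≤ #κ.ord.ToType := by rwa [Cardinal.mk_ord_toType]
  obtain ⟨φ⟩ := h
  obtain ⟨E, hE, hd⟩ := hT (fun b => if h : ∃ a, φ a = b then F h.choose else univ)
  refine ⟨E, hE, fun a => ?_⟩
  have h1 := hd (φ a)
  have hex : ∃ a', φ a' = φ a := ⟨a, rfl⟩
  simp only [dif_pos hex] at h1
  have h2 : hex.choose = a := φ.injective hex.choose_spec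
  rwa [h2] at h1

/-- **Boxes on levels**, with filters that decide only `κ` sets. -/
theorem exists_boxes_level_of_compact {κ : Cardinal.{0}} (hκ : κ.IsRegular)
    {T₀ T₁ : Set (Node κ.ord.ToType)}
    (h₀ : IsRegularTree T₀) (h₁ : IsRegularTree T₁) (D : Ultrafilter κ.ord.ToType)
    (hD : CardinalInterFilter (D : Filter κ.ord.ToType) κ) (hDt : ∀ a, Ioi a ∈ D)
    (hE₀ : GenCompact κ T₀) (hE₁ : GenCompact κ T₁) {ι : Type} (hι : #ι < κ) (c : T₀ → T₁ → ι)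
    (a₀ : T₀) (a₁ : T₁) :
    ∃ s, a₀ ≤ s ∧ ∃ t, a₁ ≤ t ∧ ∃ i : ι, ∀ (M J : Type), #M < κ → #J < κ →
      ∀ (p : M → T₀) (q : J → T₁), (∀ m, s ≤ p m) → (∀ j, t ≤ q j) →
        {ζ | ∃ (x : M → T₀) (y : J → T₁),
          (∀ m, p m ≤ x m ∧ (x m : Node κ.ord.ToType).len = ζ) ∧
          (∀ j, q j ≤ y j ∧ (y j : Node κ.ord.ToType).len = ζ) ∧
          ∀ m j, c (x m) (y j) = i} ∈ D := by
  classical
  have hb₀ : ∀ (s : T₀) (ζ : κ.ord.ToType), ∃ r : T₀, (s : Node κ.ord.ToType).len ≤ ζ →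
      s ≤ r ∧ (r : Node κ.ord.ToType).len = ζ := by
    intro s ζ
    by_cases h : (s : Node κ.ord.ToType).len ≤ ζ
    · obtain ⟨r, hr⟩ := exists_level h₀ s ζ h
      exact ⟨r, fun _ => hr⟩
    · exact ⟨s, fun h' => absurd h' h⟩
  have hb₁ : ∀ (s : T₁) (ζ : κ.ord.ToType), ∃ r : T₁, (s : Node κ.ord.ToType).len ≤ ζ →
      s ≤ r ∧ (r : Node κ.ord.ToType).len = ζ := by
    intro s ζ
    by_cases h : (s : Node κ.ord.ToType).len ≤ ζ
    · obtain ⟨r, hr⟩ := exists_level h₁ s ζ h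
      exact ⟨r, fun _ => hr⟩
    · exact ⟨s, fun h' => absurd h' h⟩
  choose b₀ hb₀ using hb₀
  choose b₁ hb₁ using hb₁
  have hlim : ∀ (s : T₀) (t : T₁), ∃ i : ι, {ζ | c (b₀ s ζ) (b₁ t ζ) = i} ∈ D := by
    intro s t
    by_contra hcon
    push Not at hcon
    have h1 : (⋂ i : ι, {ζ | c (b₀ s ζ) (b₁ t ζ) = i}ᶜ) ∈ (D : Filter κ.ord.ToType) :=
      (Filter.cardinal_iInter_mem hι).2
        (fun i => Ultrafilter.compl_mem_iff_notMem.2 (hcon i))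
    obtain ⟨ζ, hζ⟩ := D.nonempty_of_mem h1
    exact mem_iInter.1 hζ (c (b₀ s ζ) (b₁ t ζ)) rfl
  choose c' hc' using hlim
  have : Nonempty T₀ := ⟨a₀⟩
  have : Nonempty T₁ := ⟨a₁⟩
  have hT₀ : #T₀ = κ := by rw [h₀.card, Cardinal.mk_ord_toType]
  have hT₁ : #T₁ = κ := by rw [h₁.card, Cardinal.mk_ord_toType]
  have hmul : ∀ {A B : Type}, #A ≤ κ → #B ≤ κ → #(A × B) ≤ κ := by
    intro A B hA hB
    rw [Cardinal.mk_prod]
    simp only [Cardinal.lift_id]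
    exact (mul_le_mul' hA hB).trans (Cardinal.mul_eq_self hκ.aleph0_le).le
  obtain ⟨E₁, hF₁, hd₁⟩ := hE₁.exists_of_le (I := T₀ × ι) (hmul hT₀.le hι.le)
    (fun z => {y | c' z.1 y = z.2})
  obtain ⟨E₀, hF₀, hd₀⟩ := hE₀.exists_of_le (I := ι × T₁) (hmul hι.le hT₁.le)
    (fun z => possible E₁ c' z.1 z.2)
  obtain ⟨s, hs, t, ht, i, hi⟩ := exists_boxes_of_decides hκ.aleph0_le (closed_tree hκ h₀)
    (closed_tree hκ h₁) (cone₀ := Ici) (cone₁ := Ici) (fun p p' h => Ici_subset_Ici.2 h)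
    (fun p p' h => Ici_subset_Ici.2 h) hF₀ hF₁ hι c' (fun x i => hd₁ (x, i))
    (fun i t => hd₀ (i, t)) a₀ a₁
  refine ⟨s, hs, t, ht, i, fun M J hM hJ p q hp hq => ?_⟩
  obtain ⟨x, y, hx, hy, hxy⟩ := hi M J hM hJ p q hp hq
  obtain ⟨l, hl⟩ := exists_bound hκ hM (fun m => (x m : Node κ.ord.ToType).len)
  obtain ⟨l', hl'⟩ := exists_bound hκ hJ (fun j => (y j : Node κ.ord.ToType).len)
  have hMJ : #(M × J) < κ := by
    rw [Cardinal.mk_prod]
    simp only [Cardinal.lift_id]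
    exact Cardinal.mul_lt_of_lt hκ.aleph0_le hM hJ
  have h1 : (⋂ z : M × J, {ζ | c (b₀ (x z.1) ζ) (b₁ (y z.2) ζ) = i}) ∈
      (D : Filter κ.ord.ToType) := by
    refine (Filter.cardinal_iInter_mem hMJ).2 fun z => ?_
    have := hc' (x z.1) (y z.2)
    rwa [hxy z.1 z.2] at this
  refine Filter.mem_of_superset (Filter.inter_mem h1 (Filter.inter_mem (hDt l) (hDt l'))) ?_
  rintro ζ ⟨hζ, hζl, hζl'⟩
  refine ⟨fun m => b₀ (x m) ζ, fun j => b₁ (y j) ζ, fun m => ?_, fun j => ?_, fun m j => ?_⟩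
  · have := hb₀ (x m) ζ ((hl m).trans (le_of_lt hζl))
    exact ⟨(hx m : p m ≤ x m).trans this.1, this.2⟩
  · have := hb₁ (y j) ζ ((hl' j).trans (le_of_lt hζl'))
    exact ⟨(hy j : q j ≤ y j).trans this.1, this.2⟩
  · exact mem_iInter.1 hζ (m, j)

end Pool.Agent.Helper58.HL
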