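import Mathlib

/-!
# Boxes from generic ultrafilters in forcing-free form

`P` is a preorder in which chains of size less than `κ` are bounded (conditions), `E : P → Filter Z`
a family of `κ`-complete proper filters, increasing with the condition, such that every subset of
`Z` is decided by densely many conditions.
-/

set_option autoImplicit false

open Cardinal Set

namespace Pool.Agent.Helper58.HL

universe u v w

/-- Chains of size less than `κ` are bounded above. -/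
def Closed (κ : Cardinal.{u}) (P : Type u) [Preorder P] : Prop :=
  ∀ C : Set P, C.Nonempty → IsChain (· ≤ ·) C → #C < κ → BddAbove C

/-- Meeting fewer than `κ` open dense requirements. -/
theorem Closed.meet {κ : Cardinal.{u}} (hκ : ℵ₀ ≤ κ) {P : Type u} [Preorder P] (hP : Closed κ P)
    {ι : Type u} (hι : #ι < κ) (R : ι → P → Prop) (hR : ∀ i p p', p ≤ p' → R i p → R i p')
    (p₀ : P) (hd : ∀ i p, p₀ ≤ p → ∃ p', p ≤ p' ∧ R i p') : ∃ p, p₀ ≤ p ∧ ∀ i, R i p := by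
  classical
  obtain ⟨r, hr⟩ := exists_wellFoundedLT ι
  choose! ext hext1 hext2 using hd
  let F : (i : ι) → ((j : ι) → j < i → P) → P := fun i h =>
    if H : ∃ u, p₀ ≤ u ∧ ∀ j (hj : j < i), h j hj ≤ u then ext i H.choose else p₀
  let g : ι → P := (wellFounded_lt (α := ι)).fix F
  have hg : ∀ i, g i = F i (fun j _ => g j) := fun i => WellFounded.fix_eq _ _ _
  have key : ∀ i, (∀ j < i, g j ≤ g i) ∧ p₀ ≤ g i ∧ R i (g i) := by
    intro i
    induction i using WellFoundedLT.induction with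
    | ind i ih =>
      have H : ∃ u, p₀ ≤ u ∧ ∀ j (_ : j < i), g j ≤ u := by
        let C : Set P := insert p₀ (g '' Iio i)
        have hch : IsChain (· ≤ ·) C := by
          rintro a (rfl | ⟨j, hj, rfl⟩) b (rfl | ⟨k, hk, rfl⟩) hab
          · exact absurd rfl hab
          · exact Or.inl (ih k hk).2.1
          · exact Or.inr (ih j hj).2.1
          · rcases lt_trichotomy j k with h | h | h
            · exact Or.inl ((ih k hk).1 j h)
            · exact absurd (by rw [h]) hab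
            · exact Or.inr ((ih j hj).1 k h)
        have hcard : #C < κ := by
          refine lt_of_le_of_lt (mk_insert_le) ?_
          refine add_lt_of_lt hκ ?_ (lt_of_lt_of_le one_lt_aleph0 hκ)
          refine lt_of_le_of_lt mk_image_le (lt_of_le_of_lt (mk_subtype_le _) hι)
        obtain ⟨u, hu⟩ := hP C ⟨p₀, mem_insert _ _⟩ hch hcard
        exact ⟨u, hu (mem_insert _ _), fun j hj => hu (mem_insert_of_mem _ ⟨j, hj, rfl⟩)⟩
      have hgi : g i = ext i H.choose := by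
        rw [hg i]
        exact dif_pos H
      have h1 := H.choose_spec
      refine ⟨fun j hj => ?_, ?_, ?_⟩
      · rw [hgi]; exact (h1.2 j hj).trans (hext1 i _ h1.1)
      · rw [hgi]; exact h1.1.trans (hext1 i _ h1.1)
      · rw [hgi]; exact hext2 i _ h1.1
  let C : Set P := insert p₀ (range g)
  have hch : IsChain (· ≤ ·) C := by
    rintro a (rfl | ⟨j, rfl⟩) b (rfl | ⟨k, rfl⟩) hab
    · exact absurd rfl hab
    · exact Or.inl (key k).2.1
    · exact Or.inr (key j).2.1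
    · rcases lt_trichotomy j k with h | h | h
      · exact Or.inl ((key k).1 j h)
      · exact absurd (by rw [h]) hab
      · exact Or.inr ((key j).1 k h)
  have hcard : #C < κ := by
    refine lt_of_le_of_lt (mk_insert_le) ?_
    refine add_lt_of_lt hκ ?_ (lt_of_lt_of_le one_lt_aleph0 hκ)
    exact lt_of_le_of_lt mk_range_le hι
  obtain ⟨u, hu⟩ := hP C ⟨p₀, mem_insert _ _⟩ hch hcard
  exact ⟨u, hu (mem_insert _ _), fun i => hR i _ _ (hu (mem_insert_of_mem _ ⟨i, rfl⟩)) (key i).2.2⟩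

theorem Closed.prod {κ : Cardinal.{u}} {P Q : Type u} [Preorder P] [Preorder Q]
    (hP : Closed κ P) (hQ : Closed κ Q) : Closed κ (P × Q) := by
  intro C hne hch hcard
  have h1 : BddAbove (Prod.fst '' C) := by
    refine hP _ (hne.image _) ?_ (lt_of_le_of_lt mk_image_le hcard)
    rintro a ⟨x, hx, rfl⟩ b ⟨y, hy, rfl⟩ hab
    rcases hch hx hy (fun h => hab (by rw [h])) with h | h
    · exact Or.inl h.1
    · exact Or.inr h.1
  have h2 : BddAbove (Prod.snd '' C) := by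
    refine hQ _ (hne.image _) ?_ (lt_of_le_of_lt mk_image_le hcard)
    rintro a ⟨x, hx, rfl⟩ b ⟨y, hy, rfl⟩ hab
    rcases hch hx hy (fun h => hab (by rw [h])) with h | h
    · exact Or.inl h.2
    · exact Or.inr h.2
  obtain ⟨a, ha⟩ := h1
  obtain ⟨b, hb⟩ := h2
  exact ⟨(a, b), fun x hx => ⟨ha (mem_image_of_mem _ hx), hb (mem_image_of_mem _ hx)⟩⟩

theorem Closed.pi {κ : Cardinal.{u}} {J : Type u} {P : Type u} [Preorder P]
    (hP : Closed κ P) : Closed κ (J → P) := by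
  intro C hne hch hcard
  have h : ∀ j, ∃ b, ∀ f ∈ C, f j ≤ b := by
    intro j
    obtain ⟨b, hb⟩ := hP ((fun f : J → P => f j) '' C) (hne.image _) (by
      rintro a ⟨x, hx, rfl⟩ b ⟨y, hy, rfl⟩ hab
      rcases hch hx hy (fun h => hab (by rw [h])) with h | h
      · exact Or.inl (h j)
      · exact Or.inr (h j)) (lt_of_le_of_lt mk_image_le hcard)
    exact ⟨b, fun f hf => hb ⟨f, hf, rfl⟩⟩
  choose b hb using h
  exact ⟨b, fun f hf j => hb j f hf⟩

/-- A generic `κ`-complete ultrafilter in forcing-free form: a family of proper `κ`-complete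
filters on `Z`, increasing with the condition, containing the cone of the condition, and deciding
every subset of `Z` densely. -/
structure IsGenUlt (κ : Cardinal.{u}) {P Z : Type u} [Preorder P] (cone : P → Set Z)
    (E : P → Filter Z) : Prop where
  ne : ∀ p, (E p).NeBot
  complete : ∀ p, CardinalInterFilter (E p) κ
  mono : ∀ p p', p ≤ p' → E p' ≤ E p
  cone_mem : ∀ p, cone p ∈ E p
  decide : ∀ (C : Set Z) (p : P), ∃ p', p ≤ p' ∧ (C ∈ E p' ∨ Cᶜ ∈ E p')

variable {κ : Cardinal.{u}}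

/-- a partition into fewer than `κ` pieces (a cover) is decided densely -/
theorem IsGenUlt.decide_cover (hκ : ℵ₀ ≤ κ) {P Z : Type u} [Preorder P] {cone : P → Set Z}
    {E : P → Filter Z} (hE : IsGenUlt κ cone E) (hP : Closed κ P) {ι : Type u} (hι : #ι < κ)
    (C : ι → Set Z) (hC : ∀ z, ∃ i, z ∈ C i) (p : P) : ∃ p', p ≤ p' ∧ ∃ i, C i ∈ E p' := by
  by_contra hcon
  push Not at hcon
  obtain ⟨q, hq, hall⟩ := hP.meet hκ hι (fun i p => (C i)ᶜ ∈ E p)
    (fun i a b hab h => hE.mono a b hab h) p (by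
      intro i a ha
      obtain ⟨b, hb, h | h⟩ := hE.decide (C i) a
      · exact absurd h (hcon b (ha.trans hb) i)
      · exact ⟨b, hb, h⟩)
  have := hE.complete q
  have h1 : (⋂ i, (C i)ᶜ) ∈ E q := (Filter.cardinal_iInter_mem hι).2 hall
  have h2 : (⋂ i, (C i)ᶜ) = ∅ := by
    ext z
    simp only [mem_iInter, mem_compl_iff, mem_empty_iff_false, iff_false, not_forall, not_not]
    exact hC z
  rw [h2] at h1
  exact (hE.ne q).ne (Filter.empty_mem_iff_bot.1 h1)

/-- **Boxes.** -/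
theorem exists_boxes (hκ : ℵ₀ ≤ κ) {P₀ P₁ Z₀ Z₁ : Type u} [Preorder P₀] [Preorder P₁]
    (h₀ : Closed κ P₀) (h₁ : Closed κ P₁) [Nonempty P₀] [Nonempty P₁]
    {cone₀ : P₀ → Set Z₀} {cone₁ : P₁ → Set Z₁} {E₀ : P₀ → Filter Z₀} {E₁ : P₁ → Filter Z₁}
    (hc₀ : ∀ p p', p ≤ p' → cone₀ p' ⊆ cone₀ p) (hc₁ : ∀ p p', p ≤ p' → cone₁ p' ⊆ cone₁ p)
    (hE₀ : IsGenUlt κ cone₀ E₀) (hE₁ : IsGenUlt κ cone₁ E₁)
    {ι : Type u} (hι : #ι < κ) (c : Z₀ → Z₁ → ι) (a₀ : P₀) (a₁ : P₁) :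
    ∃ s, a₀ ≤ s ∧ ∃ t, a₁ ≤ t ∧ ∃ i : ι, ∀ (M J : Type u), #M < κ → #J < κ →
      ∀ (p : M → P₀) (q : J → P₁), (∀ m, s ≤ p m) → (∀ j, t ≤ q j) →
        ∃ (x : M → Z₀) (y : J → Z₁), (∀ m, x m ∈ cone₀ (p m)) ∧ (∀ j, y j ∈ cone₁ (q j)) ∧
          ∀ m j, c (x m) (y j) = i := by
  classical
  let Q : ι → P₁ → Set Z₀ := fun i t => {x | ∃ t', t ≤ t' ∧ {z | c x z = i} ∈ E₁ t'}
  have hQ : ∀ i t t', t ≤ t' → Q i t' ⊆ Q i t := by
    rintro i t t' h x ⟨t'', h1, h2⟩
    exact ⟨t'', h.trans h1, h2⟩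
  have hcov : ∀ t x, ∃ i, x ∈ Q i t := by
    intro t x
    obtain ⟨t', h1, i, h2⟩ := hE₁.decide_cover hκ h₁ hι (fun i => {z | c x z = i})
      (fun z => ⟨c x z, rfl⟩) t
    exact ⟨i, t', h1, h2⟩
  have main : ∃ s, a₀ ≤ s ∧ ∃ t, a₁ ≤ t ∧ ∃ i, ∀ s', s ≤ s' → ∀ t', t ≤ t' →
      ∃ s'', s' ≤ s'' ∧ Q i t' ∈ E₀ s'' := by
    by_contra hcon
    push Not at hcon
    obtain ⟨⟨s, t⟩, hst, hall⟩ := (h₀.prod h₁).meet hκ hι
      (fun i (z : P₀ × P₁) => ∀ s', z.1 ≤ s' → Q i z.2 ∉ E₀ s')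
      (by
        rintro i ⟨s, t⟩ ⟨s', t'⟩ ⟨h1, h2⟩ h s'' hs'' hmem
        exact h s'' (le_trans h1 hs'') (Filter.mem_of_superset hmem (hQ i _ _ h2)))
      (a₀, a₁)
      (by
        rintro i ⟨s, t⟩ ⟨hs, ht⟩
        obtain ⟨s', h1, t', h2, h3⟩ := hcon s hs t ht i
        exact ⟨(s', t'), ⟨h1, h2⟩, h3⟩)
    obtain ⟨s', h1, i, h2⟩ := hE₀.decide_cover hκ h₀ hι (fun i => Q i t) (hcov t) s
    exact hall i s' h1 h2
  obtain ⟨s, hs, t, ht, i, hi⟩ := main
  refine ⟨s, hs, t, ht, i, fun M J hM hJ p q hp hq => ?_⟩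
  obtain ⟨q', hq', hall⟩ := (h₁.pi (J := J)).meet hκ hM
    (fun m (f : J → P₁) => ∃ x ∈ cone₀ (p m), ∀ j, {z | c x z = i} ∈ E₁ (f j))
    (by
      rintro m f f' hf ⟨x, hx, h⟩
      exact ⟨x, hx, fun j => hE₁.mono _ _ (hf j) (h j)⟩)
    q
    (by
      intro m f hf
      obtain ⟨s', hs', hs''⟩ := h₀.meet hκ hJ (fun j u => Q i (f j) ∈ E₀ u)
        (fun j a b hab h => hE₀.mono a b hab h) (p m)
        (fun j u hu => hi u ((hp m).trans hu) (f j) ((hq j).trans (hf j)))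
      have := hE₀.complete s'
      have h1 : (⋂ j, Q i (f j)) ∈ E₀ s' := (Filter.cardinal_iInter_mem hJ).2 hs''
      have := hE₀.ne s'
      obtain ⟨x, hx1, hx2⟩ := Filter.nonempty_of_mem (Filter.inter_mem h1 (hE₀.cone_mem s'))
      simp only [mem_iInter] at hx1
      choose g hg1 hg2 using hx1
      exact ⟨g, hg1, x, hc₀ _ _ hs' hx2, hg2⟩)
  choose x hx1 hx2 using hall
  have hy : ∀ j, ∃ y ∈ cone₁ (q j), ∀ m, c (x m) y = i := by
    intro j
    have := hE₁.complete (q' j)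
    have h1 : (⋂ m, {z | c (x m) z = i}) ∈ E₁ (q' j) :=
      (Filter.cardinal_iInter_mem hM).2 (fun m => hx2 m j)
    have := hE₁.ne (q' j)
    obtain ⟨y, hy1, hy2⟩ := Filter.nonempty_of_mem (Filter.inter_mem h1 (hE₁.cone_mem (q' j)))
    simp only [mem_iInter, mem_ofPred_eq] at hy1
    exact ⟨y, hc₁ _ _ (hq' j) hy2, hy1⟩
  choose y hy1 hy2 using hy
  exact ⟨x, y, hx1, hy1, fun m j => hy2 j m⟩

end Pool.Agent.Helper58.HL
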