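import Pool.Agent.Helper58.HL.Core
import Pool.Agent.Helper2.HB.Node

/-!
# Boxes on levels of two regular trees
-/

set_option autoImplicit false

open Cardinal Set Helper2.HB

namespace Pool.Agent.Helper58.HL

variable {κ : Cardinal.{0}}

/-- fewer than `κ` elements of `κ` are bounded -/
theorem exists_bound (hκ : κ.IsRegular) {Z : Type} (hZ : #Z < κ) (g : Z → κ.ord.ToType) :
    ∃ l, ∀ z, g z ≤ l := by
  have hcof : Order.cof κ.ord.ToType = κ := by rw [Ordinal.cof_toType, hκ.cof_ord]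
  have h : BddAbove (range g) := by
    refine .of_not_isCofinal fun h => ?_
    have := (Order.cof_le h).trans Cardinal.mk_range_le
    rw [hcof] at this
    exact absurd this (not_le.2 hZ)
  obtain ⟨l, hl⟩ := h
  exact ⟨l, fun z => hl ⟨z, rfl⟩⟩

theorem hK_toType : ∀ ζ : κ.ord.ToType, #(Iio ζ) < #κ.ord.ToType := fun ζ => by
  rw [Cardinal.mk_ord_toType]; exact Cardinal.mk_Iio_toType_ord_lt ζ

/-- every node has extensions at every higher level -/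
theorem exists_level {T : Set (Node κ.ord.ToType)} (hT : IsRegularTree T) (s : T)
    (l : κ.ord.ToType) (hl : (s : Node κ.ord.ToType).len ≤ l) :
    ∃ r : T, s ≤ r ∧ (r : Node κ.ord.ToType).len = l := by
  obtain ⟨r, hr, hrl, h⟩ := hT.ub hK_toType (D := {(s : Node κ.ord.ToType)})
    (by simp [s.2]) (by simp) l (by simpa using hl)
  exact ⟨⟨r, hr⟩, h _ rfl, hrl⟩

theorem closed_tree (hκ : κ.IsRegular) {T : Set (Node κ.ord.ToType)} (hT : IsRegularTree T) :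
    Closed κ T := by
  intro C _ hch hcard
  obtain ⟨l, hl⟩ := exists_bound hκ hcard (fun z : C => (z.1 : Node κ.ord.ToType).len)
  obtain ⟨r, hr, -, h⟩ := hT.ub hK_toType (D := Subtype.val '' C) (by
      rintro _ ⟨x, -, rfl⟩; exact x.2) (by
      rintro _ ⟨x, hx, rfl⟩ _ ⟨y, hy, rfl⟩ hxy
      exact hch hx hy (fun h => hxy (by rw [h]))) l (by
      rintro _ ⟨x, hx, rfl⟩; exact hl ⟨x, hx⟩)
  exact ⟨⟨r, hr⟩, fun x hx => h _ ⟨x, hx, rfl⟩⟩

/-- **Boxes on levels.** -/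
theorem exists_boxes_level (hκ : κ.IsRegular) {T₀ T₁ : Set (Node κ.ord.ToType)}
    (h₀ : IsRegularTree T₀) (h₁ : IsRegularTree T₁) (D : Ultrafilter κ.ord.ToType)
    (hD : CardinalInterFilter (D : Filter κ.ord.ToType) κ) (hDt : ∀ a, Ioi a ∈ D)
    {E₀ : T₀ → Filter T₀} {E₁ : T₁ → Filter T₁} (hE₀ : IsGenUlt κ Ici E₀)
    (hE₁ : IsGenUlt κ Ici E₁) {ι : Type} (hι : #ι < κ) (c : T₀ → T₁ → ι) (a₀ : T₀) (a₁ : T₁) :
    ∃ s, a₀ ≤ s ∧ ∃ t, a₁ ≤ t ∧ ∃ i : ι, ∀ (M J : Type), #M < κ → #J < κ →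
      ∀ (p : M → T₀) (q : J → T₁), (∀ m, s ≤ p m) → (∀ j, t ≤ q j) →
        {ζ | ∃ (x : M → T₀) (y : J → T₁),
          (∀ m, p m ≤ x m ∧ (x m : Node κ.ord.ToType).len = ζ) ∧
          (∀ j, q j ≤ y j ∧ (y j : Node κ.ord.ToType).len = ζ) ∧
          ∀ m j, c (x m) (y j) = i} ∈ D := by
  classical
  have hb₀ : ∀ (s : T₀) (ζ : κ.ord.ToType), ∃ r : T₀, (s : Node κ.ord.ToType).len ≤ ζ →
      s ≤ r ∧ (r : Node κ.ord.ToType).len = ζ := by
    intro s ζ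
    by_cases h : (s : Node κ.ord.ToType).len ≤ ζ
    · obtain ⟨r, hr⟩ := exists_level h₀ s ζ h
      exact ⟨r, fun _ => hr⟩
    · exact ⟨s, fun h' => absurd h' h⟩
  have hb₁ : ∀ (s : T₁) (ζ : κ.ord.ToType), ∃ r : T₁, (s : Node κ.ord.ToType).len ≤ ζ →
      s ≤ r ∧ (r : Node κ.ord.ToType).len = ζ := by
    intro s ζ
    by_cases h : (s : Node κ.ord.ToType).len ≤ ζ
    · obtain ⟨r, hr⟩ := exists_level h₁ s ζ h
      exact ⟨r, fun _ => hr⟩
    · exact ⟨s, fun h' => absurd h' h⟩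
  choose b₀ hb₀ using hb₀
  choose b₁ hb₁ using hb₁
  have hlim : ∀ (s : T₀) (t : T₁), ∃ i : ι, {ζ | c (b₀ s ζ) (b₁ t ζ) = i} ∈ D := by
    intro s t
    by_contra hcon
    push Not at hcon
    have h1 : (⋂ i : ι, {ζ | c (b₀ s ζ) (b₁ t ζ) = i}ᶜ) ∈ (D : Filter κ.ord.ToType) :=
      (Filter.cardinal_iInter_mem hι).2
        (fun i => Ultrafilter.compl_mem_iff_notMem.2 (hcon i))
    obtain ⟨ζ, hζ⟩ := D.nonempty_of_mem h1
    exact mem_iInter.1 hζ (c (b₀ s ζ) (b₁ t ζ)) rfl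
  choose c' hc' using hlim
  haveI : Nonempty T₀ := ⟨a₀⟩
  haveI : Nonempty T₁ := ⟨a₁⟩
  obtain ⟨s, hs, t, ht, i, hi⟩ := exists_boxes hκ.aleph0_le (closed_tree hκ h₀)
    (closed_tree hκ h₁) (cone₀ := Ici) (cone₁ := Ici) (fun p p' h => Ici_subset_Ici.2 h)
    (fun p p' h => Ici_subset_Ici.2 h) hE₀ hE₁ hι c' a₀ a₁
  refine ⟨s, hs, t, ht, i, fun M J hM hJ p q hp hq => ?_⟩
  obtain ⟨x, y, hx, hy, hxy⟩ := hi M J hM hJ p q hp hq
  obtain ⟨l, hl⟩ := exists_bound hκ hM (fun m => (x m : Node κ.ord.ToType).len)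
  obtain ⟨l', hl'⟩ := exists_bound hκ hJ (fun j => (y j : Node κ.ord.ToType).len)
  have hMJ : #(M × J) < κ := by
    rw [Cardinal.mk_prod]
    simp only [Cardinal.lift_id]
    exact Cardinal.mul_lt_of_lt hκ.aleph0_le hM hJ
  have h1 : (⋂ z : M × J, {ζ | c (b₀ (x z.1) ζ) (b₁ (y z.2) ζ) = i}) ∈
      (D : Filter κ.ord.ToType) := by
    refine (Filter.cardinal_iInter_mem hMJ).2 fun z => ?_
    have := hc' (x z.1) (y z.2)
    rwa [hxy z.1 z.2] at this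
  refine Filter.mem_of_superset (Filter.inter_mem h1 (Filter.inter_mem (hDt l) (hDt l'))) ?_
  rintro ζ ⟨hζ, hζl, hζl'⟩
  refine ⟨fun m => b₀ (x m) ζ, fun j => b₁ (y j) ζ, fun m => ?_, fun j => ?_, fun m j => ?_⟩
  · have := hb₀ (x m) ζ ((hl m).trans (le_of_lt hζl))
    exact ⟨(hx m : p m ≤ x m).trans this.1, this.2⟩
  · have := hb₁ (y j) ζ ((hl' j).trans (le_of_lt hζl'))
    exact ⟨(hy j : q j ≤ y j).trans this.1, this.2⟩
  · exact mem_iInter.1 hζ (m, j)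

end Pool.Agent.Helper58.HL
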